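import Pool.Agent.Work.MP_db9399_nc.Base
import Pool.Agent.Work.MP_db9399_co.Galvin

/-!
# MP_db9399, THEOREM NC: block ABSB
-/

set_option autoImplicit false

namespace Pool.Agent.Work.MP_db9399_nc.helper22

open Finset Classical
open Pool.Agent.Work.MP_db9399_all (nb)
open Pool.Agent.Work.MP_db9399_nc

universe u

/-- greedy colouring with lists -/
theorem greedy {ι : Type u} (cf : ι → ι → Prop) (hsym : ∀ i j, cf i j → cf j i)
    (L : ι → Finset ℕ) (a : ℕ) (S : Finset ι)
    (h : ∀ i ∈ S, (S.filter (fun j => cf i j)).card ≤ a) (hL : ∀ i ∈ S, a < (L i).card) :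
    ∃ t : ι → ℕ, (∀ i ∈ S, t i ∈ L i) ∧ ∀ i ∈ S, ∀ j ∈ S, i ≠ j → cf i j → t i ≠ t j := by
  induction S using Finset.induction_on with
  | empty => exact ⟨fun _ => 0, by simp, by simp⟩
  | insert i S hi ih =>
    obtain ⟨t, ht1, ht2⟩ := ih
      (fun j hj => (card_le_card (filter_subset_filter _ (subset_insert i S))).trans
        (h j (mem_insert_of_mem hj)))
      (fun j hj => hL j (mem_insert_of_mem hj))
    have hcard : ((S.filter (fun j => cf i j)).image t).card < (L i).card :=
      lt_of_le_of_lt (card_image_le.trans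
        ((card_le_card (filter_subset_filter _ (subset_insert i S))).trans
          (h i (mem_insert_self i S)))) (hL i (mem_insert_self i S))
    obtain ⟨c, hcL, hc⟩ := exists_mem_notMem_of_card_lt_card hcard
    refine ⟨fun j => if j = i then c else t j, ?_, ?_⟩
    · intro j hj
      by_cases hji : j = i
      · subst hji; simpa using hcL
      · simp only [hji, if_false]
        exact ht1 j ((mem_insert.1 hj).resolve_left hji)
    · intro j hj l hl hjl hcf
      by_cases hji : j = i <;> by_cases hli : l = i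
      · exact absurd (hji.trans hli.symm) hjl
      · subst hji
        simp only [hli, if_true, if_false]
        intro he
        apply hc
        rw [mem_image]
        exact ⟨l, mem_filter.2 ⟨(mem_insert.1 hl).resolve_left hli, hcf⟩, he.symm⟩
      · subst hli
        simp only [hji, if_true, if_false]
        intro he
        apply hc
        rw [mem_image]
        exact ⟨j, mem_filter.2 ⟨(mem_insert.1 hj).resolve_left hji, hsym _ _ hcf⟩, he⟩
      · simp only [hji, hli, if_false]
        exact ht2 j ((mem_insert.1 hj).resolve_left hji) l ((mem_insert.1 hl).resolve_left hli)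
          hjl hcf

/-- the matchings of a proper colouring of the edges inside `W` -/
theorem mts_of_col {V : Type u} [Fintype V] (G : SimpleGraph V) (W : Finset V) (E : Finset ℕ)
    (Z : V → Finset ℕ) (t : V → V → ℕ) (hs : ∀ v w, t v w = t w v)
    (hE : ∀ v ∈ W, ∀ w ∈ W, G.Adj v w → t v w ∈ E ∧ t v w ∉ Z v)
    (hp : ∀ v ∈ W, ∀ w ∈ W, ∀ w' ∈ W, G.Adj v w → G.Adj v w' → t v w = t v w' → w = w') :
    ∃ K : ℕ → V → V, Mts G E K ∧ (∀ b ∈ E, ∀ v, K b v ≠ v → v ∈ W ∧ b ∉ Z v) ∧
      ∀ v ∈ W, ∀ w ∈ W, G.Adj v w → ∃ b ∈ E, K b v = w := by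
  let P : ℕ → V → V → Prop := fun b v w => v ∈ W ∧ w ∈ W ∧ G.Adj v w ∧ t v w = b
  have hPsym : ∀ b v w, P b v w → P b w v := fun b v w h =>
    ⟨h.2.1, h.1, h.2.2.1.symm, (hs w v).trans h.2.2.2⟩
  have hPun : ∀ b v w w', P b v w → P b v w' → w = w' := fun b v w w' h h' =>
    hp v h.1 w h.2.1 w' h'.2.1 h.2.2.1 h'.2.2.1 (h.2.2.2.trans h'.2.2.2.symm)
  let K : ℕ → V → V := fun b v => if h : ∃ w, P b v w then h.choose else v
  have hK1 : ∀ b v w, P b v w → K b v = w := by
    intro b v w h
    have hex : ∃ w, P b v w := ⟨w, h⟩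
    have : K b v = hex.choose := by
      simp only [K]; rw [dif_pos hex]
    rw [this]
    exact hPun b v _ _ hex.choose_spec h
  have hK2 : ∀ b v, (¬ ∃ w, P b v w) → K b v = v := by
    intro b v h
    simp only [K]; rw [dif_neg h]
  have hK3 : ∀ b v, K b v ≠ v → P b v (K b v) := by
    intro b v h
    by_cases hex : ∃ w, P b v w
    · obtain ⟨w, hw⟩ := hex
      rw [hK1 b v w hw]; exact hw
    · exact absurd (hK2 b v hex) h
  refine ⟨K, ⟨?_, ?_, ?_⟩, ?_, ?_⟩
  · intro b _ v
    by_cases hex : ∃ w, P b v w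
    · obtain ⟨w, hw⟩ := hex
      rw [hK1 b v w hw, hK1 b w v (hPsym b v w hw)]
    · rw [hK2 b v hex, hK2 b v hex]
  · intro b _ v hv
    exact (hK3 b v hv).2.2.1
  · intro b _ b' _ hbb v hv he
    have h1 := hK3 b v hv
    have h2 := hK3 b' v (by rw [← he]; exact hv)
    rw [← he] at h2
    exact hbb (h1.2.2.2.symm.trans h2.2.2.2)
  · intro b _ v hv
    have h1 := hK3 b v hv
    refine ⟨h1.1, ?_⟩
    rw [← h1.2.2.2]
    exact (hE v h1.1 _ h1.2.1 h1.2.2.1).2
  · intro v hv w hw hvw
    exact ⟨t v w, (hE v hv w hw hvw).1, hK1 _ v w ⟨hv, hw, hvw, rfl⟩⟩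

theorem card_sdiff2 (P Z Z' : Finset ℕ) (z : ℕ) (h : Z.card ≤ z) (h' : Z'.card ≤ z) :
    P.card ≤ ((P \ Z) \ Z').card + 2 * z := by
  have h1 := le_card_sdiff Z P
  have h2 := le_card_sdiff Z' (P \ Z)
  omega

theorem stmt_ABSB : Stmt_ABSB.{u} := by
  intro V _ G W E Z z hZ hcard
  -- numbering of `W`
  obtain ⟨r, hrlt, hrinj⟩ : ∃ r : V → ℕ, (∀ v ∈ W, r v < W.card) ∧
      ∀ v ∈ W, ∀ w ∈ W, r v = r w → v = w := by
    refine ⟨fun v => if h : v ∈ W then (W.equivFin ⟨v, h⟩ : ℕ) else 0, ?_, ?_⟩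
    · intro v hv
      simp only [hv, dif_pos]
      exact (W.equivFin ⟨v, hv⟩).2
    · intro v hv w hw h
      simp only [hv, hw, dif_pos] at h
      have := W.equivFin.injective (Fin.ext h)
      exact congrArg Subtype.val this
  set n := W.card with hn
  set m := (n + 1) / 2 with hm
  have hm1 : 2 * m ≤ n + 1 := by omega
  have hm2 : n ≤ 2 * m := by omega
  -- the two palettes
  obtain ⟨P1, hP1E, hP1⟩ := exists_subset_card_eq (s := E) (n := m + 2 * z) (by omega)
  set P2 := E \ P1 with hP2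
  have hP2c : 2 * m + 2 * z < P2.card := by
    have := card_sdiff_add_card_eq_card hP1E
    rw [← hP2] at this
    omega
  -- the edges between the halves
  let S1 : Finset (V × V) := (univ : Finset (V × V)).filter
    (fun e => e.1 ∈ W ∧ e.2 ∈ W ∧ G.Adj e.1 e.2 ∧ r e.1 < m ∧ m ≤ r e.2)
  let a : V × V → ℕ := fun e => (r e.1 + r e.2) % m
  let b : V × V → ℕ := fun e => m - 1 - (r e.1 + r e.2) % m
  have hmemS1 : ∀ e, e ∈ S1 ↔ e.1 ∈ W ∧ e.2 ∈ W ∧ G.Adj e.1 e.2 ∧ r e.1 < m ∧ m ≤ r e.2 := by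
    intro e; simp [S1]
  have ha : ∀ e ∈ S1, ∀ f ∈ S1, e.1 = f.1 → a e = a f → e = f := by
    intro e he f hf hef haf
    rw [hmemS1] at he hf
    have h1 : (r e.1 + r e.2) % m = (r f.1 + r f.2) % m := haf
    have h2 : e.2 = f.2 := by
      apply hrinj _ he.2.1 _ hf.2.1
      rw [hef] at h1
      have h3 : r e.2 ≡ r f.2 [MOD m] := Nat.ModEq.add_left_cancel' (r f.1) h1
      have h4 := hrlt _ he.2.1
      have h5 := hrlt _ hf.2.1
      have h6 : (r e.2 - m) ≡ (r f.2 - m) [MOD m] := by
        have e1 : r e.2 = (r e.2 - m) + m := by omega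
        have e2 : r f.2 = (r f.2 - m) + m := by omega
        rw [e1, e2] at h3
        exact Nat.ModEq.add_right_cancel' m h3
      have h7 : r e.2 - m = r f.2 - m :=
        Nat.ModEq.eq_of_lt_of_lt h6 (by omega) (by omega)
      omega
    exact Prod.ext hef h2
  have hb0 : ∀ e ∈ S1, ∀ f ∈ S1, e.2 = f.2 → a e = a f → e = f := by
    intro e he f hf hef haf
    rw [hmemS1] at he hf
    have h1 : (r e.1 + r e.2) % m = (r f.1 + r f.2) % m := haf
    have h2 : e.1 = f.1 := by
      apply hrinj _ he.1 _ hf.1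
      rw [hef] at h1
      have h3 : r e.1 ≡ r f.1 [MOD m] := Nat.ModEq.add_right_cancel' (r f.2) h1
      exact Nat.ModEq.eq_of_lt_of_lt h3 he.2.2.2.1 hf.2.2.2.1
    exact Prod.ext h2 hef
  have hab : ∀ e ∈ S1, a e < m := by
    intro e he
    rw [hmemS1] at he
    exact Nat.mod_lt _ (by omega)
  have hb : ∀ e ∈ S1, ∀ f ∈ S1, e.2 = f.2 → b e = b f → e = f := by
    intro e he f hf hef hbf
    apply hb0 e he f hf hef
    have h1 := hab e he
    have h2 := hab f hf
    have h3 : m - 1 - a e = m - 1 - a f := hbf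
    omega
  obtain ⟨col, hcol1, hcol2⟩ := _root_.MP_db9399_co.galvin (E := V × V) (C := ℕ) Prod.fst Prod.snd
    a b S1 ha hb (fun e => (P1 \ Z e.1) \ Z e.2) (by
      intro e he
      have h1 : (S1.filter (fun f => f.1 = e.1 ∧ a f < a e)).card ≤ a e := by
        have : (S1.filter (fun f => f.1 = e.1 ∧ a f < a e)).card ≤ (range (a e)).card := by
          apply card_le_card_of_injOn a
          · intro f hf
            have := (mem_filter.1 hf).2.2
            simpa using this
          · intro f hf f' hf' hff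
            have hf1 := mem_filter.1 hf
            have hf2 := mem_filter.1 hf'
            exact ha f hf1.1 f' hf2.1 (hf1.2.1.trans hf2.2.1.symm) hff
        simpa using this
      have h2 : (S1.filter (fun f => f.2 = e.2 ∧ b f < b e)).card ≤ b e := by
        have : (S1.filter (fun f => f.2 = e.2 ∧ b f < b e)).card ≤ (range (b e)).card := by
          apply card_le_card_of_injOn b
          · intro f hf
            have := (mem_filter.1 hf).2.2
            simpa using this
          · intro f hf f' hf' hff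
            have hf1 := mem_filter.1 hf
            have hf2 := mem_filter.1 hf'
            exact hb f hf1.1 f' hf2.1 (hf1.2.1.trans hf2.2.1.symm) hff
        simpa using this
      have h3 : b e = m - 1 - a e := rfl
      have h4 := hab e he
      rw [hmemS1] at he
      have h5 := card_sdiff2 P1 (Z e.1) (Z e.2) z (hZ _ he.1) (hZ _ he.2.1)
      omega)
  -- the edges inside the halves
  let S2 : Finset (V × V) := (univ : Finset (V × V)).filter
    (fun e => e.1 ∈ W ∧ e.2 ∈ W ∧ G.Adj e.1 e.2 ∧ r e.1 < r e.2 ∧ (r e.1 < m ↔ r e.2 < m))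
  have hmemS2 : ∀ e, e ∈ S2 ↔ e.1 ∈ W ∧ e.2 ∈ W ∧ G.Adj e.1 e.2 ∧ r e.1 < r e.2 ∧
      (r e.1 < m ↔ r e.2 < m) := by
    intro e; simp [S2]
  have hhalf : ∀ v : V, (W.filter (fun w => (r v < m ↔ r w < m))).card ≤ m := by
    intro v
    by_cases hv : r v < m
    · have : (W.filter (fun w => (r v < m ↔ r w < m))).card ≤ (range m).card := by
        apply card_le_card_of_injOn r
        · intro w hw
          have := (mem_filter.1 hw).2
          simpa using this.1 hv
        · intro w hw w' hw' h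
          exact hrinj w (mem_filter.1 hw).1 w' (mem_filter.1 hw').1 h
      simpa using this
    · have : (W.filter (fun w => (r v < m ↔ r w < m))).card ≤ (Ico m n).card := by
        apply card_le_card_of_injOn r
        · intro w hw
          have h1 := (mem_filter.1 hw).2
          have h2 := hrlt w (mem_filter.1 hw).1
          have h3 : ¬ r w < m := fun h => hv (h1.2 h)
          simp only [coe_Ico, Set.mem_Ico]
          omega
        · intro w hw w' hw' h
          exact hrinj w (mem_filter.1 hw).1 w' (mem_filter.1 hw').1 h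
      rw [Nat.card_Ico] at this
      omega
  have hcnt : ∀ v : V, (S2.filter (fun f => f.1 = v ∨ f.2 = v)).card ≤ m := by
    intro v
    have hsub : S2.filter (fun f => f.1 = v ∨ f.2 = v) ⊆
        (W.filter (fun w => (r v < m ↔ r w < m))).image
          (fun w => if r v < r w then (v, w) else (w, v)) := by
      intro f hf
      rw [mem_filter, hmemS2] at hf
      obtain ⟨⟨h1, h2, h3, h4, h5⟩, h6⟩ := hf
      rw [mem_image]
      rcases h6 with h6 | h6
      · refine ⟨f.2, mem_filter.2 ⟨h2, ?_⟩, ?_⟩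
        · rw [← h6]; exact h5
        · rw [← h6, if_pos h4]
      · refine ⟨f.1, mem_filter.2 ⟨h1, ?_⟩, ?_⟩
        · rw [← h6]; exact h5.symm
        · rw [← h6, if_neg (by omega)]
    exact (card_le_card hsub).trans (card_image_le.trans (hhalf v))
  let cf : V × V → V × V → Prop := fun e f => f.1 = e.1 ∨ f.2 = e.1 ∨ f.1 = e.2 ∨ f.2 = e.2
  obtain ⟨t2, ht21, ht22⟩ := greedy cf (by
      intro i j h
      simp only [cf] at h ⊢
      tauto) (fun e => (P2 \ Z e.1) \ Z e.2) (2 * m) S2 (by
      intro e _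
      have hsub : S2.filter (fun f => cf e f) ⊆
          S2.filter (fun f => f.1 = e.1 ∨ f.2 = e.1) ∪ S2.filter (fun f => f.1 = e.2 ∨ f.2 = e.2) := by
        intro f hf
        have hf1 := (mem_filter.1 hf).1
        rcases (mem_filter.1 hf).2 with h | h | h | h
        · exact mem_union.2 (Or.inl (mem_filter.2 ⟨hf1, Or.inl h⟩))
        · exact mem_union.2 (Or.inl (mem_filter.2 ⟨hf1, Or.inr h⟩))
        · exact mem_union.2 (Or.inr (mem_filter.2 ⟨hf1, Or.inl h⟩))
        · exact mem_union.2 (Or.inr (mem_filter.2 ⟨hf1, Or.inr h⟩))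
      have h1 := card_le_card hsub
      have h0 : (S2.filter (fun f => cf e f)).card ≤ 2 * m := by
        refine h1.trans ?_
        have h2 := card_union_le (S2.filter (fun f => f.1 = e.1 ∨ f.2 = e.1))
          (S2.filter (fun f => f.1 = e.2 ∨ f.2 = e.2))
        have h3 := hcnt e.1
        have h4 := hcnt e.2
        omega
      convert h0) (by
      intro e he
      rw [hmemS2] at he
      have h5 := card_sdiff2 P2 (Z e.1) (Z e.2) z (hZ _ he.1) (hZ _ he.2.1)
      omega)
  -- the colouring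
  let t : V → V → ℕ := fun v w =>
    if r v < m ∧ m ≤ r w then col (v, w) else
    if r w < m ∧ m ≤ r v then col (w, v) else
    if r v < r w then t2 (v, w) else if r w < r v then t2 (w, v) else 0
  have ht1 : ∀ v w, r v < m → m ≤ r w → t v w = col (v, w) := by
    intro v w h1 h2
    simp only [t]; rw [if_pos ⟨h1, h2⟩]
  have ht1' : ∀ v w, r w < m → m ≤ r v → t v w = col (w, v) := by
    intro v w h1 h2
    simp only [t]; rw [if_neg (by omega), if_pos ⟨h1, h2⟩]
  have ht2 : ∀ v w, (r v < m ↔ r w < m) → r v < r w → t v w = t2 (v, w) := by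
    intro v w h1 h2
    simp only [t]; rw [if_neg (by omega), if_neg (by omega), if_pos h2]
  have ht2' : ∀ v w, (r v < m ↔ r w < m) → r w < r v → t v w = t2 (w, v) := by
    intro v w h1 h2
    simp only [t]; rw [if_neg (by omega), if_neg (by omega), if_neg (by omega), if_pos h2]
  have hsym : ∀ v w, t v w = t w v := by
    intro v w
    by_cases h1 : r v < m <;> by_cases h2 : r w < m
    · rcases lt_trichotomy (r v) (r w) with h | h | h
      · rw [ht2 v w (by omega) h, ht2' w v (by omega) h]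
      · simp only [t]
        rw [if_neg (by omega), if_neg (by omega), if_neg (by omega), if_neg (by omega),
          if_neg (by omega), if_neg (by omega), if_neg (by omega), if_neg (by omega)]
      · rw [ht2' v w (by omega) h, ht2 w v (by omega) h]
    · rw [ht1 v w h1 (by omega), ht1' w v h1 (by omega)]
    · rw [ht1' v w h2 (by omega), ht1 w v h2 (by omega)]
    · rcases lt_trichotomy (r v) (r w) with h | h | h
      · rw [ht2 v w (by omega) h, ht2' w v (by omega) h]
      · simp only [t]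
        rw [if_neg (by omega), if_neg (by omega), if_neg (by omega), if_neg (by omega),
          if_neg (by omega), if_neg (by omega), if_neg (by omega), if_neg (by omega)]
      · rw [ht2' v w (by omega) h, ht2 w v (by omega) h]
  -- the two kinds of edges
  have hcross : ∀ v ∈ W, ∀ w ∈ W, G.Adj v w → ¬ (r v < m ↔ r w < m) →
      ∃ e ∈ S1, t v w = col e ∧ ((e.1 = v ∧ e.2 = w ∧ r v < m) ∨ (e.1 = w ∧ e.2 = v ∧ m ≤ r v)) := by
    intro v hv w hw hvw h
    by_cases h1 : r v < m
    · have h2 : m ≤ r w := by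
        by_contra h2; exact h ⟨fun _ => by omega, fun _ => h1⟩
      exact ⟨(v, w), (hmemS1 _).2 ⟨hv, hw, hvw, h1, h2⟩, ht1 v w h1 h2, Or.inl ⟨rfl, rfl, h1⟩⟩
    · have h2 : r w < m := by
        by_contra h2; exact h ⟨fun h3 => absurd h3 h1, fun h3 => absurd h3 h2⟩
      exact ⟨(w, v), (hmemS1 _).2 ⟨hw, hv, hvw.symm, h2, by simpa using h1⟩,
        ht1' v w h2 (by omega), Or.inr ⟨rfl, rfl, by omega⟩⟩
  have hins : ∀ v ∈ W, ∀ w ∈ W, G.Adj v w → (r v < m ↔ r w < m) →
      ∃ e ∈ S2, t v w = t2 e ∧ ((e.1 = v ∧ e.2 = w) ∨ (e.1 = w ∧ e.2 = v)) := by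
    intro v hv w hw hvw h
    rcases lt_trichotomy (r v) (r w) with h1 | h1 | h1
    · exact ⟨(v, w), (hmemS2 _).2 ⟨hv, hw, hvw, h1, h⟩, ht2 v w h h1, Or.inl ⟨rfl, rfl⟩⟩
    · exact absurd (hrinj v hv w hw h1) hvw.ne
    · exact ⟨(w, v), (hmemS2 _).2 ⟨hw, hv, hvw.symm, h1, h.symm⟩, ht2' v w h h1, Or.inr ⟨rfl, rfl⟩⟩
  have hL1 : ∀ e ∈ S1, col e ∈ P1 ∧ col e ∉ Z e.1 ∧ col e ∉ Z e.2 := by
    intro e he
    have := hcol1 e he
    rw [mem_sdiff, mem_sdiff] at this
    exact ⟨this.1.1, this.1.2, this.2⟩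
  have hL2 : ∀ e ∈ S2, t2 e ∈ P2 ∧ t2 e ∉ Z e.1 ∧ t2 e ∉ Z e.2 := by
    intro e he
    have := ht21 e he
    rw [mem_sdiff, mem_sdiff] at this
    exact ⟨this.1.1, this.1.2, this.2⟩
  have hPd : ∀ c, c ∈ P1 → c ∈ P2 → False := by
    intro c h1 h2
    exact (mem_sdiff.1 h2).2 h1
  refine mts_of_col G W E Z t hsym ?_ ?_
  · intro v hv w hw hvw
    by_cases h : (r v < m ↔ r w < m)
    · obtain ⟨e, heS, hte, he⟩ := hins v hv w hw hvw h
      obtain ⟨h1, h2, h3⟩ := hL2 e heS
      rw [hte]
      refine ⟨(mem_sdiff.1 h1).1, ?_⟩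
      rcases he with ⟨he1, _⟩ | ⟨_, he2⟩
      · rw [← he1]; exact h2
      · rw [← he2]; exact h3
    · obtain ⟨e, heS, hte, he⟩ := hcross v hv w hw hvw h
      obtain ⟨h1, h2, h3⟩ := hL1 e heS
      rw [hte]
      refine ⟨hP1E h1, ?_⟩
      rcases he with ⟨he1, _⟩ | ⟨_, he2, _⟩
      · rw [← he1]; exact h2
      · rw [← he2]; exact h3
  · intro v hv w hw w' hw' hvw hvw' heq
    by_contra hne
    by_cases h : (r v < m ↔ r w < m) <;> by_cases h' : (r v < m ↔ r w' < m)
    · obtain ⟨e, heS, hte, he⟩ := hins v hv w hw hvw h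
      obtain ⟨e', heS', hte', he'⟩ := hins v hv w' hw' hvw' h'
      have hee : e ≠ e' := by
        rintro rfl
        rcases he with ⟨h1, h2⟩ | ⟨h1, h2⟩ <;> rcases he' with ⟨h3, h4⟩ | ⟨h3, h4⟩
        · exact hne (h2.symm.trans h4)
        · exact hvw'.ne (h1.symm.trans h3)
        · exact hvw.ne (h3.symm.trans h1)
        · exact hne (h1.symm.trans h3)
      refine ht22 e heS e' heS' hee ?_ (hte.symm.trans (heq.trans hte'))
      simp only [cf]
      rcases he with ⟨h1, h2⟩ | ⟨h1, h2⟩ <;> rcases he' with ⟨h3, h4⟩ | ⟨h3, h4⟩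
      · exact Or.inl (h3.trans h1.symm)
      · exact Or.inr (Or.inl (h4.trans h1.symm))
      · exact Or.inr (Or.inr (Or.inl (h3.trans h2.symm)))
      · exact Or.inr (Or.inr (Or.inr (h4.trans h2.symm)))
    · obtain ⟨e, heS, hte, he⟩ := hins v hv w hw hvw h
      obtain ⟨e', heS', hte', he'⟩ := hcross v hv w' hw' hvw' h'
      refine hPd (col e') (hL1 e' heS').1 ?_
      rw [← hte', ← heq, hte]
      exact (hL2 e heS).1
    · obtain ⟨e, heS, hte, he⟩ := hcross v hv w hw hvw h
      obtain ⟨e', heS', hte', he'⟩ := hins v hv w' hw' hvw' h'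
      refine hPd (col e) (hL1 e heS).1 ?_
      rw [← hte, heq, hte']
      exact (hL2 e' heS').1
    · obtain ⟨e, heS, hte, he⟩ := hcross v hv w hw hvw h
      obtain ⟨e', heS', hte', he'⟩ := hcross v hv w' hw' hvw' h'
      have hcol := hte.symm.trans (heq.trans hte')
      rcases he with ⟨h1, h2, h5⟩ | ⟨h1, h2, h5⟩ <;> rcases he' with ⟨h3, h4, h6⟩ | ⟨h3, h4, h6⟩
      · refine hcol2 e heS e' heS' ?_ (Or.inl (h1.trans h3.symm)) hcol
        rintro rfl
        exact hne (h2.symm.trans h4)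
      · omega
      · omega
      · refine hcol2 e heS e' heS' ?_ (Or.inr (h2.trans h4.symm)) hcol
        rintro rfl
        exact hne (h1.symm.trans h3)

end Pool.Agent.Work.MP_db9399_nc.helper22
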